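import Mathlib

set_option autoImplicit false

namespace Pool.Agent.Lib.MP_d7b81d_co

/-- A rank function of a finite matroid (on finsets). -/
structure Rk {ι : Type*} [DecidableEq ι] (r : Finset ι → ℕ) : Prop where
  empty : r ∅ = 0
  mono : ∀ A B : Finset ι, A ⊆ B → r A ≤ r B
  sub : ∀ A B : Finset ι, r (A ∪ B) + r (A ∩ B) ≤ r A + r B
  unit : ∀ x : ι, r {x} ≤ 1

variable {ι : Type*} [DecidableEq ι]

lemma Rk.union_le {r : Finset ι → ℕ} (h : Rk r) (A B : Finset ι) : r (A ∪ B) ≤ r A + r B := by
  have := h.sub A B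
  omega

lemma Rk.card_bound {r : Finset ι → ℕ} (h : Rk r) (A : Finset ι) : r A ≤ A.card := by
  induction A using Finset.induction_on with
  | empty => simp [h.empty]
  | insert a s ha ih =>
    rw [Finset.card_insert_of_notMem ha, Finset.insert_eq]
    have h1 := h.union_le {a} s
    have h2 := h.unit a
    omega

/-- contraction -/
def ctr (r : Finset ι → ℕ) (Z : Finset ι) : Finset ι → ℕ := fun W => r (W ∪ Z) - r Z

lemma Rk.ctr {r : Finset ι → ℕ} (h : Rk r) (Z : Finset ι) : Rk (ctr r Z) where
  empty := by simp [Pool.Agent.Lib.MP_d7b81d_co.ctr]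
  mono A B hAB := by
    have := h.mono (A ∪ Z) (B ∪ Z) (Finset.union_subset_union_left hAB)
    simp only [Pool.Agent.Lib.MP_d7b81d_co.ctr]
    omega
  sub A B := by
    have h1 := h.sub (A ∪ Z) (B ∪ Z)
    have e1 : (A ∪ Z) ∪ (B ∪ Z) = (A ∪ B) ∪ Z := by
      ext x; simp only [Finset.mem_union]; tauto
    have e2 : (A ∪ Z) ∩ (B ∪ Z) = (A ∩ B) ∪ Z := by
      ext x; simp only [Finset.mem_union, Finset.mem_inter]; tauto
    rw [e1, e2] at h1
    have h2 := h.mono Z (A ∪ Z) Finset.subset_union_right
    have h3 := h.mono Z (B ∪ Z) Finset.subset_union_right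
    have h4 := h.mono Z ((A ∩ B) ∪ Z) Finset.subset_union_right
    have h5 := h.mono Z ((A ∪ B) ∪ Z) Finset.subset_union_right
    simp only [Pool.Agent.Lib.MP_d7b81d_co.ctr]
    omega
  unit x := by
    have h1 := h.union_le {x} Z
    have h2 := h.unit x
    simp only [Pool.Agent.Lib.MP_d7b81d_co.ctr]
    omega

lemma glue {r : Finset ι → ℕ} (h : Rk r) {Z I1 I2 : Finset ι} (hI1 : I1 ⊆ Z)
    (hI2 : Disjoint I2 Z) (h1 : r I1 = I1.card) (hZ : r Z = I1.card)
    (h2 : ctr r Z I2 = I2.card) : r (I1 ∪ I2) = (I1 ∪ I2).card := by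
  have e1 : (I1 ∪ I2) ∪ Z = I2 ∪ Z := by
    ext x; simp only [Finset.mem_union]
    have := @hI1 x
    tauto
  have e2 : (I1 ∪ I2) ∩ Z = I1 := by
    ext x; simp only [Finset.mem_union, Finset.mem_inter]
    have h3 := @hI1 x
    have h4 : x ∈ I2 → x ∉ Z := fun hx => Finset.disjoint_left.mp hI2 hx
    tauto
  have h3 := h.sub (I1 ∪ I2) Z
  rw [e1, e2] at h3
  have hd : Disjoint I1 I2 := (hI2.mono_right hI1).symm
  have hc : (I1 ∪ I2).card = I1.card + I2.card := Finset.card_union_of_disjoint hd
  have h4 := h.card_bound (I1 ∪ I2)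
  have h5 := h.mono Z (I2 ∪ Z) Finset.subset_union_right
  simp only [ctr] at h2
  omega

/-- Edmonds' covering theorem for two matroids. -/
theorem partition (n : ℕ) : ∀ (Y : Finset ι) (r₁ r₂ : Finset ι → ℕ), Y.card = n → Rk r₁ → Rk r₂ →
    (∀ Z ⊆ Y, Z.card ≤ r₁ Z + r₂ Z) →
    ∃ I J : Finset ι, I ∪ J = Y ∧ Disjoint I J ∧ r₁ I = I.card ∧ r₂ J = J.card := by
  induction n using Nat.strong_induction_on with
  | _ n ih =>
    intro Y r₁ r₂ hn h1 h2 hY
    by_cases hT : ∃ Z : Finset ι, Z ⊂ Y ∧ Z.Nonempty ∧ Z.card = r₁ Z + r₂ Z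
    · obtain ⟨Z, hZY, hZne, hZt⟩ := hT
      have hlt : Z.card < n := hn ▸ Finset.card_lt_card hZY
      obtain ⟨I1, J1, hu, hd, hI1, hJ1⟩ := ih Z.card hlt Z r₁ r₂ rfl h1 h2
        (fun W hW => hY W (hW.trans hZY.subset))
      have hlt2 : (Y \ Z).card < n := by
        rw [← hn]
        apply Finset.card_lt_card
        refine Finset.ssubset_iff_subset_ne.mpr ⟨Finset.sdiff_subset, ?_⟩
        intro he
        obtain ⟨z, hz⟩ := hZne
        have : z ∈ Y \ Z := by rw [he]; exact hZY.subset hz
        exact (Finset.mem_sdiff.mp this).2 hz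
      obtain ⟨I2, J2, hu2, hd2, hI2, hJ2⟩ := ih (Y \ Z).card hlt2 (Y \ Z) (ctr r₁ Z) (ctr r₂ Z) rfl
        (h1.ctr Z) (h2.ctr Z) (by
          intro W hW
          have hdW : Disjoint W Z := Finset.disjoint_of_subset_left hW Finset.sdiff_disjoint
          have h3 := hY (W ∪ Z) (Finset.union_subset (hW.trans Finset.sdiff_subset) hZY.subset)
          rw [Finset.card_union_of_disjoint hdW] at h3
          have h4 := h1.mono Z (W ∪ Z) Finset.subset_union_right
          have h5 := h2.mono Z (W ∪ Z) Finset.subset_union_right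
          simp only [ctr]
          omega)
      have hc : Z.card = I1.card + J1.card := by
        rw [← hu, Finset.card_union_of_disjoint hd]
      have hI1Z : I1 ⊆ Z := by rw [← hu]; exact Finset.subset_union_left
      have hJ1Z : J1 ⊆ Z := by rw [← hu]; exact Finset.subset_union_right
      have hm1 := h1.mono I1 Z hI1Z
      have hm2 := h2.mono J1 Z hJ1Z
      have hI2Z : Disjoint I2 Z := Finset.disjoint_of_subset_left
        (show I2 ⊆ Y \ Z by rw [← hu2]; exact Finset.subset_union_left) Finset.sdiff_disjoint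
      have hJ2Z : Disjoint J2 Z := Finset.disjoint_of_subset_left
        (show J2 ⊆ Y \ Z by rw [← hu2]; exact Finset.subset_union_right) Finset.sdiff_disjoint
      refine ⟨I1 ∪ I2, J1 ∪ J2, ?_, ?_, ?_, ?_⟩
      · have : (I1 ∪ I2) ∪ (J1 ∪ J2) = (I1 ∪ J1) ∪ (I2 ∪ J2) := by
          ext x; simp only [Finset.mem_union]; tauto
        rw [this, hu, hu2]
        exact Finset.union_sdiff_of_subset hZY.subset
      · rw [Finset.disjoint_union_left, Finset.disjoint_union_right, Finset.disjoint_union_right]
        exact ⟨⟨hd, (hJ2Z.mono_right hI1Z).symm⟩, ⟨hI2Z.mono_right hJ1Z, hd2⟩⟩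
      · exact glue h1 hI1Z hI2Z hI1 (by omega) hI2
      · exact glue h2 hJ1Z hJ2Z hJ1 (by omega) hJ2
    · push Not at hT
      rcases Y.eq_empty_or_nonempty with rfl | ⟨y, hy⟩
      · exact ⟨∅, ∅, by simp, by simp, by simp [h1.empty], by simp [h2.empty]⟩
      · -- key step
        have key : ∀ (s₁ s₂ : Finset ι → ℕ), Rk s₁ → Rk s₂ → s₁ {y} = 1 →
            (∀ Z ⊆ Y, Z.card ≤ s₁ Z + s₂ Z) →
            (∀ Z, Z ⊂ Y → Z.Nonempty → Z.card ≠ s₁ Z + s₂ Z) →
            ∃ I J : Finset ι, I ∪ J = Y ∧ Disjoint I J ∧ s₁ I = I.card ∧ s₂ J = J.card := by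
          intro s₁ s₂ hs1 hs2 hy1 hYs hTs
          have hlt : (Y.erase y).card < n := hn ▸ Finset.card_erase_lt_of_mem hy
          obtain ⟨I, J, hu, hd, hI, hJ⟩ := ih (Y.erase y).card hlt (Y.erase y) (ctr s₁ {y}) s₂ rfl
            (hs1.ctr {y}) hs2 (by
              intro W hW
              rcases W.eq_empty_or_nonempty with rfl | hWne
              · simp
              · have hWY : W ⊂ Y := lt_of_le_of_lt hW (Finset.erase_ssubset hy)
                have h3 := hTs W hWY hWne
                have h4 := hYs W hWY.subset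
                have h5 := hs1.mono W (W ∪ {y}) Finset.subset_union_left
                simp only [ctr]
                omega)
          have hyI : y ∉ I := fun h => by
            have : y ∈ Y.erase y := by rw [← hu]; exact Finset.mem_union_left _ h
            simp at this
          have hyJ : y ∉ J := fun h => by
            have : y ∈ Y.erase y := by rw [← hu]; exact Finset.mem_union_right _ h
            simp at this
          refine ⟨insert y I, J, ?_, ?_, ?_, hJ⟩
          · rw [Finset.insert_union, hu, Finset.insert_erase hy]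
          · rw [Finset.disjoint_insert_left]; exact ⟨hyJ, hd⟩
          · rw [Finset.card_insert_of_notMem hyI, Finset.insert_eq, Finset.union_comm]
            have h5 := hs1.mono {y} (I ∪ {y}) Finset.subset_union_right
            simp only [ctr] at hI
            omega
        have hy' := hY {y} (by simpa using hy)
        rw [Finset.card_singleton] at hy'
        have hu1 := h1.unit y
        have hu2 := h2.unit y
        rcases Nat.lt_or_ge (r₁ {y}) 1 with hlt | hge
        · have hr2 : r₂ {y} = 1 := by omega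
          obtain ⟨I, J, hu, hd, hI, hJ⟩ := key r₂ r₁ h2 h1 hr2
            (fun Z hZ => by have := hY Z hZ; omega)
            (fun Z hZ hZn => by have := hT Z hZ hZn; omega)
          exact ⟨J, I, by rw [Finset.union_comm]; exact hu, hd.symm, hJ, hI⟩
        · exact key r₁ r₂ h1 h2 (by omega) hY (fun Z hZ hZn => hT Z hZ hZn)

open Submodule

variable {U : Type*} [AddCommGroup U] [Module ℝ U]

/-- A positive dependency `∑_A w v = ∑_B w v` inside `S` with `B` in the span of `A`. -/
def Good (v : ι → U) (S : Finset ι) : Prop :=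
  ∃ (A B : Finset ι) (w : ι → ℝ), A ⊆ S ∧ B ⊆ S ∧ Disjoint A B ∧ B.Nonempty ∧
    (∀ x ∈ A, 0 < w x) ∧ (∀ x ∈ B, 0 < w x) ∧ ∑ x ∈ A, w x • v x = ∑ x ∈ B, w x • v x ∧
    ∀ b ∈ B, v b ∈ span ℝ (v '' (A : Set ι))

omit [DecidableEq ι] in
lemma Good.mono {v : ι → U} {S T : Finset ι} (h : Good v S) (hST : S ⊆ T) : Good v T := by
  obtain ⟨A, B, w, h1, h2, h3⟩ := h
  exact ⟨A, B, w, h1.trans hST, h2.trans hST, h3⟩

lemma lemK (v : ι → U) (h : U →ₗ[ℝ] ℝ) (E G : Finset ι) (hd : Disjoint E G)
    (hE : ∀ x ∈ E, h (v x) = 1) (hG : ∀ x ∈ G, h (v x) = 1) (c : ι → ι → ℝ)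
    (hc : ∀ e ∈ E, ∑ g ∈ G, c e g • v g = v e) (e0 : ι) (he0 : e0 ∈ E) (g0 : ι) (hg0 : g0 ∈ G)
    (hneg : c e0 g0 < 0)
    (hspan : ∀ g ∈ G, v g ∈ span ℝ (v '' ((insert g0 E : Finset ι) : Set ι))) :
    Good v (E ∪ G) := by
  classical
  set M : ℝ := ∑ e ∈ E, |c e g0| with hM
  have hM0 : 0 ≤ M := Finset.sum_nonneg (fun _ _ => abs_nonneg _)
  obtain ⟨δ, hδ0, hδ⟩ : ∃ δ : ℝ, 0 < δ ∧ δ * M < - c e0 g0 := by
    refine ⟨(- c e0 g0) / (2 * (M + 1)), by apply div_pos <;> linarith, ?_⟩
    rw [div_mul_eq_mul_div, div_lt_iff₀ (by linarith)]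
    nlinarith
  set α : ι → ℝ := fun e => if e = e0 then 1 else δ with hα
  have hαpos : ∀ e, 0 < α e := by
    intro e; simp only [hα]; split_ifs <;> linarith
  set l : ι → ℝ := fun g => ∑ e ∈ E, α e * c e g with hl
  have hl0 : l g0 < 0 := by
    have h1 : l g0 = c e0 g0 + ∑ e ∈ E.erase e0, δ * c e g0 := by
      simp only [hl]
      rw [← Finset.add_sum_erase _ _ he0]
      congr 1
      · simp [hα]
      · apply Finset.sum_congr rfl
        intro e he
        have : e ≠ e0 := Finset.ne_of_mem_erase he
        simp [hα, this]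
    have h2 : ∑ e ∈ E.erase e0, δ * c e g0 ≤ δ * M := by
      rw [hM, Finset.mul_sum]
      calc ∑ e ∈ E.erase e0, δ * c e g0 ≤ ∑ e ∈ E.erase e0, δ * |c e g0| := by
            apply Finset.sum_le_sum
            intro e _
            exact mul_le_mul_of_nonneg_left (le_abs_self _) hδ0.le
        _ ≤ ∑ e ∈ E, δ * |c e g0| := by
            apply Finset.sum_le_sum_of_subset_of_nonneg (Finset.erase_subset _ _)
            intro e _ _
            exact mul_nonneg hδ0.le (abs_nonneg _)
    linarith
  set P : Finset ι := G.filter (fun g => l g < 0) with hP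
  set B : Finset ι := G.filter (fun g => 0 < l g) with hB
  set w : ι → ℝ := fun x => if x ∈ E then α x else |l x| with hw
  have hnE : ∀ g ∈ G, g ∉ E := fun g hg hgE => Finset.disjoint_left.mp hd hgE hg
  have hEP : Disjoint E P := by
    rw [Finset.disjoint_left]
    intro x hx hxP
    exact hnE x (Finset.mem_filter.mp hxP).1 hx
  have hsumE : ∑ x ∈ E, w x • v x = ∑ g ∈ G, l g • v g := by
    have h1 : ∑ x ∈ E, w x • v x = ∑ x ∈ E, ∑ g ∈ G, (α x * c x g) • v g := by
      apply Finset.sum_congr rfl
      intro x hx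
      rw [show w x = α x by simp [hw, hx]]
      conv_lhs => rw [← hc x hx]
      rw [Finset.smul_sum]
      apply Finset.sum_congr rfl
      intro g _
      rw [smul_smul]
    rw [h1, Finset.sum_comm]
    apply Finset.sum_congr rfl
    intro g _
    rw [← Finset.sum_smul]
  have hsum : ∑ x ∈ E ∪ P, w x • v x = ∑ x ∈ B, w x • v x := by
    rw [Finset.sum_union hEP, hsumE]
    rw [hP, hB, Finset.sum_filter, Finset.sum_filter, ← Finset.sum_add_distrib]
    apply Finset.sum_congr rfl
    intro g hg
    have hwg : w g = |l g| := by simp [hw, hnE g hg]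
    rw [hwg]
    rcases lt_trichotomy (l g) 0 with h1 | h1 | h1
    · rw [if_pos h1, if_neg (by linarith), abs_of_neg h1, ← add_smul]
      simp
    · simp [h1]
    · rw [if_neg (by linarith), if_pos h1, abs_of_pos h1, add_zero]
  have hwA : ∀ x ∈ E ∪ P, 0 < w x := by
    intro x hx
    by_cases hxE : x ∈ E
    · simp only [hw, if_pos hxE]; exact hαpos x
    · have hxP : x ∈ P := by
        rcases Finset.mem_union.mp hx with h1 | h1
        · exact absurd h1 hxE
        · exact h1
      simp only [hw, if_neg hxE]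
      exact abs_pos.mpr (ne_of_lt (Finset.mem_filter.mp hxP).2)
  have hwB : ∀ x ∈ B, 0 < w x := by
    intro x hx
    have := Finset.mem_filter.mp hx
    simp only [hw, if_neg (hnE x this.1)]
    exact abs_pos.mpr (ne_of_gt this.2)
  refine ⟨E ∪ P, B, w, ?_, ?_, ?_, ?_, hwA, hwB, hsum, ?_⟩
  · exact Finset.union_subset_union_right (Finset.filter_subset _ _)
  · exact (Finset.filter_subset _ _).trans Finset.subset_union_right
  · rw [Finset.disjoint_left]
    intro x hx hxB
    have h1 := Finset.mem_filter.mp hxB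
    rcases Finset.mem_union.mp hx with h2 | h2
    · exact hnE x h1.1 h2
    · have h3 := Finset.mem_filter.mp h2
      linarith [h3.2, h1.2]
  · by_contra hBne
    rw [Finset.not_nonempty_iff_eq_empty] at hBne
    rw [hBne, Finset.sum_empty] at hsum
    have h1 := congrArg h hsum
    rw [map_sum, map_zero] at h1
    have h2 : ∑ x ∈ E ∪ P, h (w x • v x) = ∑ x ∈ E ∪ P, w x := by
      apply Finset.sum_congr rfl
      intro x hx
      rw [map_smul, smul_eq_mul]
      have : h (v x) = 1 := by
        rcases Finset.mem_union.mp hx with h3 | h3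
        · exact hE x h3
        · exact hG x (Finset.mem_filter.mp h3).1
      rw [this, mul_one]
    have h3 : 0 < ∑ x ∈ E ∪ P, w x :=
      Finset.sum_pos hwA ⟨e0, Finset.mem_union_left _ he0⟩
    linarith
  · intro b hb
    have hbG := (Finset.mem_filter.mp hb).1
    refine span_mono ?_ (hspan b hbG)
    apply Set.image_mono
    intro x hx
    rw [Finset.mem_coe, Finset.mem_insert] at hx
    rw [Finset.mem_coe, Finset.mem_union]
    rcases hx with rfl | hx
    · right
      exact Finset.mem_filter.mpr ⟨hg0, hl0⟩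
    · left; exact hx

omit [DecidableEq ι] in
lemma exists_fun (v : ι → U) (Z : Finset ι) (y : ι) (hy : v y ∉ span ℝ (v '' (Z : Set ι))) :
    ∃ g : U →ₗ[ℝ] ℝ, g (v y) = 1 ∧ ∀ z ∈ span ℝ (v '' (Z : Set ι)), g z = 0 := by
  obtain ⟨f, hf, hk⟩ := Submodule.exists_le_ker_of_notMem hy
  refine ⟨(f (v y))⁻¹ • f, ?_, ?_⟩
  · simp [hf]
  · intro z hz
    have := hk hz
    rw [LinearMap.mem_ker] at this
    simp [this]

lemma lemM (v : ι → U) (h : U →ₗ[ℝ] ℝ) (E F : Finset ι) (y : ι) (hyE : y ∉ E) (hyF : y ∉ F)
    (hd : Disjoint E F) (hh : ∀ x ∈ insert y (E ∪ F), h (v x) = 1) (W : Submodule ℝ U)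
    (hWE : span ℝ (v '' ((insert y E : Finset ι) : Set ι)) = W)
    (hWF : span ℝ (v '' ((insert y F : Finset ι) : Set ι)) = W)
    (hy1 : v y ∉ span ℝ (v '' (E : Set ι))) (hy2 : v y ∉ span ℝ (v '' (F : Set ι)))
    (hex : ∀ f ∈ F, v f ∉ span ℝ (v '' (E : Set ι)) →
      span ℝ (v '' ((insert f E : Finset ι) : Set ι)) = W) :
    Good v (insert y (E ∪ F)) ∨ ∀ e ∈ E, v e ∈ span ℝ (v '' (F : Set ι)) := by
  classical
  by_cases hgood : Good v (insert y (E ∪ F))
  · exact Or.inl hgood
  right
  obtain ⟨g1, hg1y, hg1⟩ := exists_fun v E y hy1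
  obtain ⟨g2, hg2y, hg2⟩ := exists_fun v F y hy2
  have hEW : ∀ e ∈ E, v e ∈ W := fun e he => by
    rw [← hWE]; exact subset_span ⟨e, by simp [he], rfl⟩
  have hFW : ∀ e ∈ F, v e ∈ W := fun e he => by
    rw [← hWF]; exact subset_span ⟨e, by simp [he], rfl⟩
  have hyW : v y ∈ W := by
    rw [← hWF]; exact subset_span ⟨y, by simp, rfl⟩
  have h1 : ∀ e, ∃ c : ι → ℝ, e ∈ E → ∑ g ∈ insert y F, c g • v g = v e := by
    intro e
    by_cases he : e ∈ E
    · have := hEW e he
      rw [← hWF, mem_span_image_finset_iff_exists_fun'] at this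
      obtain ⟨c, hc⟩ := this
      exact ⟨c, fun _ => hc⟩
    · exact ⟨0, fun h => absurd h he⟩
  choose c hc using h1
  have h2 : ∀ e, ∃ c : ι → ℝ, e ∈ F → ∑ g ∈ insert y E, c g • v g = v e := by
    intro e
    by_cases he : e ∈ F
    · have := hFW e he
      rw [← hWE, mem_span_image_finset_iff_exists_fun'] at this
      obtain ⟨c, hc⟩ := this
      exact ⟨c, fun _ => hc⟩
    · exact ⟨0, fun h => absurd h he⟩
  choose c' hc' using h2
  have hdE : Disjoint E (insert y F) := by
    rw [Finset.disjoint_insert_right]; exact ⟨hyE, hd⟩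
  have hdF : Disjoint F (insert y E) := by
    rw [Finset.disjoint_insert_right]; exact ⟨hyF, hd.symm⟩
  have hsub1 : E ∪ insert y F ⊆ insert y (E ∪ F) := by
    intro x hx; simp only [Finset.mem_union, Finset.mem_insert] at hx ⊢; tauto
  have hsub2 : F ∪ insert y E ⊆ insert y (E ∪ F) := by
    intro x hx; simp only [Finset.mem_union, Finset.mem_insert] at hx ⊢; tauto
  -- (i)
  have hi : ∀ e ∈ E, 0 ≤ c e y := by
    intro e he
    by_contra hlt
    push Not at hlt
    apply hgood
    refine (lemK v h E (insert y F) hdE ?_ ?_ c hc e he y (by simp) hlt ?_).mono hsub1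
    · intro x hx; exact hh x (hsub1 (by simp [hx]))
    · intro x hx; exact hh x (hsub1 (by simp only [Finset.mem_union]; right; exact hx))
    · intro g hg
      rw [hWE]
      rcases Finset.mem_insert.mp hg with rfl | hg
      · exact hyW
      · exact hFW g hg
  have hii : ∀ e ∈ F, 0 ≤ c' e y := by
    intro e he
    by_contra hlt
    push Not at hlt
    apply hgood
    refine (lemK v h F (insert y E) hdF ?_ ?_ c' hc' e he y (by simp) hlt ?_).mono hsub2
    · intro x hx; exact hh x (hsub2 (by simp [hx]))
    · intro x hx; exact hh x (hsub2 (by simp only [Finset.mem_union]; right; exact hx))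
    · intro g hg
      rw [hWF]
      rcases Finset.mem_insert.mp hg with rfl | hg
      · exact hyW
      · exact hEW g hg
  have hiii : ∀ e ∈ E, ∀ f ∈ F, v f ∉ span ℝ (v '' (E : Set ι)) → 0 ≤ c e f := by
    intro e he f hf hfs
    by_contra hlt
    push Not at hlt
    apply hgood
    refine (lemK v h E (insert y F) hdE ?_ ?_ c hc e he f (by simp [hf]) hlt ?_).mono hsub1
    · intro x hx; exact hh x (hsub1 (by simp [hx]))
    · intro x hx; exact hh x (hsub1 (by simp only [Finset.mem_union]; right; exact hx))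
    · intro g hg
      rw [hex f hf hfs]
      rcases Finset.mem_insert.mp hg with rfl | hg
      · exact hyW
      · exact hFW g hg
  have hg1f : ∀ f ∈ F, g1 (v f) = c' f y := by
    intro f hf
    conv_lhs => rw [← hc' f hf]
    rw [Finset.sum_insert hyE, map_add, map_smul, hg1y, smul_eq_mul, mul_one, map_sum]
    have : ∑ x ∈ E, g1 (c' f x • v x) = 0 := by
      apply Finset.sum_eq_zero
      intro x hx
      rw [map_smul, hg1 (v x) (subset_span ⟨x, hx, rfl⟩), smul_zero]
    rw [this, add_zero]
  intro e he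
  have hz : g1 (v e) = 0 := hg1 _ (subset_span ⟨e, he, rfl⟩)
  have hz2 : g1 (v e) = c e y + ∑ f ∈ F, c e f * g1 (v f) := by
    conv_lhs => rw [← hc e he]
    rw [Finset.sum_insert hyF, map_add, map_smul, hg1y, smul_eq_mul, mul_one, map_sum]
    congr 1
    apply Finset.sum_congr rfl
    intro f _
    rw [map_smul, smul_eq_mul]
  have hnn : 0 ≤ ∑ f ∈ F, c e f * g1 (v f) := by
    apply Finset.sum_nonneg
    intro f hf
    by_cases hfs : v f ∈ span ℝ (v '' (E : Set ι))
    · rw [hg1 _ hfs, mul_zero]
    · exact mul_nonneg (hiii e he f hf hfs) (by rw [hg1f f hf]; exact hii f hf)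
  have hcey : c e y = 0 := le_antisymm (by linarith) (hi e he)
  rw [← hc e he, Finset.sum_insert hyF, hcey, zero_smul, zero_add]
  exact sum_mem (fun f hf => smul_mem _ _ (subset_span ⟨f, hf, rfl⟩))

/-- rank of a finite subfamily -/
noncomputable def rk (v : ι → U) (Z : Finset ι) : ℕ :=
  Module.finrank ℝ (span ℝ (v '' (Z : Set ι)))

instance finSpan (v : ι → U) (Z : Finset ι) : FiniteDimensional ℝ (span ℝ (v '' (Z : Set ι))) :=
  FiniteDimensional.span_of_finite ℝ (Z.finite_toSet.image v)

lemma rk_Rk (v : ι → U) : Rk (rk v) where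
  empty := by simp [rk]
  mono A B hAB := by
    apply Submodule.finrank_mono
    apply span_mono
    apply Set.image_mono
    exact_mod_cast hAB
  sub A B := by
    simp only [rk]
    have h1 := Submodule.finrank_sup_add_finrank_inf_eq (span ℝ (v '' (A : Set ι)))
      (span ℝ (v '' (B : Set ι)))
    have h2 : span ℝ (v '' ((A ∪ B : Finset ι) : Set ι)) =
        span ℝ (v '' (A : Set ι)) ⊔ span ℝ (v '' (B : Set ι)) := by
      rw [Finset.coe_union, Set.image_union, span_union]
    have h3 : Module.finrank ℝ (span ℝ (v '' ((A ∩ B : Finset ι) : Set ι))) ≤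
        Module.finrank ℝ ((span ℝ (v '' (A : Set ι)) ⊓ span ℝ (v '' (B : Set ι)) :
          Submodule ℝ U)) := by
      apply Submodule.finrank_mono
      apply le_inf
      · exact span_mono (Set.image_mono (by simp))
      · exact span_mono (Set.image_mono (by simp))
    rw [h2]
    omega
  unit x := by
    have hx : v '' (({x} : Finset ι) : Set ι) = {v x} := by simp
    unfold rk
    rw [hx]
    exact (finrank_span_le_card ({v x} : Set U)).trans (by simp)

omit [DecidableEq ι] in
lemma span_eq_of_rk (v : ι → U) {A B : Finset ι} (hAB : A ⊆ B) (h : rk v B ≤ rk v A) :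
    span ℝ (v '' (A : Set ι)) = span ℝ (v '' (B : Set ι)) := by
  apply Submodule.eq_of_le_of_finrank_le
  · exact span_mono (Set.image_mono (by exact_mod_cast hAB))
  · exact h

theorem thmL (v : ι → U) (h : U →ₗ[ℝ] ℝ) (hinj : Function.Injective v) :
    ∀ (n : ℕ) (S : Finset ι), S.card = n → (∀ x ∈ S, h (v x) = 1) → 2 ≤ S.card →
      2 * rk v S ≤ S.card + 1 → Good v S := by
  classical
  have hR := rk_Rk v
  have pair : ∀ x y : ι, x ≠ y → h (v x) = 1 → h (v y) = 1 → rk v {x, y} = 2 := by
    intro x y hxy hx hy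
    have hne : v x ≠ v y := fun he => hxy (hinj he)
    have hli : LinearIndependent ℝ ![v x, v y] := by
      rw [LinearIndependent.pair_iff]
      intro a b hab
      have h1 := congrArg h hab
      simp only [map_add, map_smul, hx, hy, smul_eq_mul, mul_one, map_zero] at h1
      have hb : b = -a := by linarith
      rw [hb, neg_smul, ← sub_eq_add_neg, ← smul_sub] at hab
      rcases smul_eq_zero.mp hab with h2 | h2
      · exact ⟨h2, by rw [hb, h2, neg_zero]⟩
      · exact absurd (sub_eq_zero.mp h2) hne
    have h1 := finrank_span_eq_card hli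
    have h2 : v '' (({x, y} : Finset ι) : Set ι) = Set.range ![v x, v y] := by
      rw [Matrix.range_cons, Matrix.range_cons, Matrix.range_empty, Set.union_empty,
        Finset.coe_pair, Set.image_pair]
      rfl
    unfold rk
    rw [h2, h1]
    simp
  intro n
  induction n using Nat.strong_induction_on with
  | _ n ih =>
    intro S hn hS hS2 hSr
    by_cases hT : ∃ Z : Finset ι, Z ⊂ S ∧ 2 ≤ Z.card ∧ 2 * rk v Z ≤ Z.card + 1
    · obtain ⟨Z, hZS, hZ2, hZr⟩ := hT
      exact (ih Z.card (hn ▸ Finset.card_lt_card hZS) Z rfl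
        (fun x hx => hS x (hZS.subset hx)) hZ2 hZr).mono hZS.subset
    push Not at hT
    have h3 : 3 ≤ S.card := by
      by_contra hlt
      have h2 : S.card = 2 := by omega
      obtain ⟨x, y, hxy, rfl⟩ := Finset.card_eq_two.mp h2
      have := pair x y hxy (hS x (by simp)) (hS y (by simp))
      omega
    have hcard : S.card + 1 = 2 * rk v S := by
      by_contra hne
      obtain ⟨x, hx⟩ : S.Nonempty := Finset.card_pos.mp (by omega)
      have h4 := hT (S.erase x) (Finset.erase_ssubset hx)
        (by rw [Finset.card_erase_of_mem hx]; omega)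
      have h5 := hR.mono (S.erase x) S (Finset.erase_subset _ _)
      rw [Finset.card_erase_of_mem hx] at h4
      omega
    obtain ⟨I, J, hu, hd, hI, hJ⟩ := partition S.card S (rk v) (rk v) rfl hR hR (by
      intro Z hZ
      rcases Finset.eq_empty_or_nonempty Z with rfl | hZne
      · simp
      rcases Nat.lt_or_ge Z.card 2 with h1 | h2
      · have hZ1 : Z.card = 1 := by
          have := hZne.card_pos; omega
        obtain ⟨x, rfl⟩ := Finset.card_eq_one.mp hZ1
        have hx : v x ≠ 0 := by
          intro h0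
          have := hS x (hZ (by simp))
          rw [h0, map_zero] at this
          norm_num at this
        have : rk v {x} = 1 := by
          have hx1 : v '' (({x} : Finset ι) : Set ι) = {v x} := by simp
          unfold rk
          rw [hx1]
          exact finrank_span_singleton hx
        rw [this]; simp
      · rcases eq_or_ne Z S with rfl | hne
        · omega
        · have := hT Z (Finset.ssubset_iff_subset_ne.mpr ⟨hZ, hne⟩) h2
          omega)
    -- wlog I is the larger one
    have main : ∀ I J : Finset ι, I ∪ J = S → Disjoint I J → rk v I = I.card → rk v J = J.card →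
        J.card < I.card → Good v S := by
      intro I J hu hd hI hJ hlt
      have hcs : I.card + J.card = S.card := by
        rw [← hu, Finset.card_union_of_disjoint hd]
      have hIS : I ⊆ S := by rw [← hu]; exact Finset.subset_union_left
      have hJS : J ⊆ S := by rw [← hu]; exact Finset.subset_union_right
      have hI' := hR.mono I S hIS
      have hIc : I.card = rk v S := by omega
      have hJc : J.card + 1 = rk v S := by omega
      have hIspan := span_eq_of_rk v hIS (by omega)
      obtain ⟨y, hyI, hyJ⟩ : ∃ y ∈ I, v y ∉ span ℝ (v '' (J : Set ι)) := by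
        by_contra hno
        push Not at hno
        have : span ℝ (v '' (I : Set ι)) ≤ span ℝ (v '' (J : Set ι)) := by
          rw [span_le]
          rintro _ ⟨x, hx, rfl⟩
          exact hno x hx
        have := Submodule.finrank_mono this
        simp only [rk] at hI hJ
        omega
      set E := I.erase y with hE
      have hIE : insert y E = I := Finset.insert_erase hyI
      have hyE : y ∉ E := Finset.notMem_erase y I
      have hyJ' : y ∉ J := fun hh => Finset.disjoint_left.mp hd hyI hh
      have hEJ : Disjoint E J := Finset.disjoint_of_subset_left (Finset.erase_subset _ _) hd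
      have hSe : insert y (E ∪ J) = S := by
        rw [← Finset.insert_union, hIE, hu]
      have hEc : E.card + 1 = I.card := Finset.card_erase_add_one hyI
      have hrE : rk v E = E.card := by
        have h1 := hR.card_bound E
        have h2 := hR.union_le {y} E
        rw [← Finset.insert_eq, hIE] at h2
        have h3 := hR.unit y
        omega
      have hy1 : v y ∉ span ℝ (v '' (E : Set ι)) := by
        intro hy
        have : span ℝ (v '' (I : Set ι)) ≤ span ℝ (v '' (E : Set ι)) := by
          rw [span_le]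
          rintro _ ⟨x, hx, rfl⟩
          rw [Finset.mem_coe, ← hIE, Finset.mem_insert] at hx
          rcases hx with rfl | hx
          · exact hy
          · exact subset_span ⟨x, hx, rfl⟩
        have := Submodule.finrank_mono this
        simp only [rk] at hI hrE
        omega
      have grow : ∀ (Z : Finset ι) (f : ι), f ∈ S → Z ⊆ S → v f ∉ span ℝ (v '' (Z : Set ι)) →
          rk v Z + 1 = rk v S →
          span ℝ (v '' ((insert f Z : Finset ι) : Set ι)) = span ℝ (v '' (S : Set ι)) := by
        intro Z f hfS hZS hf hZr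
        apply span_eq_of_rk v (Finset.insert_subset hfS hZS)
        by_contra hlt2
        push Not at hlt2
        have h1 := hR.mono Z (insert f Z) (Finset.subset_insert _ _)
        have h2 := span_eq_of_rk v (Finset.subset_insert f Z) (by omega)
        apply hf
        rw [h2]
        exact subset_span ⟨f, by simp, rfl⟩
      have hyS : y ∈ S := hIS hyI
      have hES : E ⊆ S := (Finset.erase_subset _ _).trans hIS
      rcases lemM v h E J y hyE hyJ' hEJ (by rw [hSe]; exact hS) (span ℝ (v '' (S : Set ι)))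
        (by rw [hIE]; exact hIspan)
        (grow J y hyS hJS hyJ (by omega)) hy1 hyJ
        (fun f hf hfs => grow E f (hJS hf) hES hfs (by omega)) with hg | hbad
      · rw [hSe] at hg; exact hg
      · exfalso
        have hEJs : E ∪ J ⊂ S := by
          rw [← hSe]
          apply Finset.ssubset_insert
          rw [Finset.mem_union]; tauto
        have hc : (E ∪ J).card = E.card + J.card := Finset.card_union_of_disjoint hEJ
        have h4 := hT (E ∪ J) hEJs (by omega)
        have h5 : rk v (E ∪ J) ≤ rk v J := by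
          apply Submodule.finrank_mono
          rw [span_le]
          rintro _ ⟨x, hx, rfl⟩
          rw [Finset.mem_coe, Finset.mem_union] at hx
          rcases hx with hx | hx
          · exact hbad x hx
          · exact subset_span ⟨x, hx, rfl⟩
        omega
    have hcs : I.card + J.card = S.card := by
      rw [← hu, Finset.card_union_of_disjoint hd]
    rcases lt_trichotomy J.card I.card with h1 | h1 | h1
    · exact main I J hu hd hI hJ h1
    · omega
    · exact main J I (by rw [Finset.union_comm]; exact hu) hd.symm hJ hI h1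

end Pool.Agent.Lib.MP_d7b81d_co
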